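import Mathlib
import Pool.Agent.Lib_helper97.LSPD.KLO

/-!
# PENT, part EQ: equidistribution of SL₂(ℤ) in three-entry boxes (definitions)
-/

set_option autoImplicit false

namespace Pool.Agent.PENT.EQ

open Finset

/-- `e(x) = exp(2πix)` -/
noncomputable def ee (x : ℝ) : ℂ := Complex.exp (2 * Real.pi * x * Complex.I)

/-- distance to the nearest integer -/
noncomputable def nd (x : ℝ) : ℝ := |x - round x|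

/-- the bound for Kloosterman sums modulo `q` with gcd `g` -/
noncomputable def klB (q g : ℕ) : ℝ :=
  (2 * (q : ℝ) ^ 3 * (g : ℝ) * (q.divisors.card : ℝ) ^ 3) ^ (1 / 4 : ℝ)

/-- the inverse of `γ` modulo `q`, as an integer in `[0, q)` -/
noncomputable def iv (q : ℕ) (γ : ℤ) : ℤ := (((γ : ZMod q)⁻¹).val : ℤ)

/-- the `γ` of a row -/
noncomputable def Grow (α M : ℕ) (γ₀ C₁ C₂ : ℤ) : Finset ℤ :=
  (Ioc C₁ C₂).filter (fun γ => IsCoprime γ (α : ℤ) ∧ (M : ℤ) ∣ γ - γ₀)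

/-- the pairs `(β, γ)` of a row: `M ∣ β - β₀`, `M ∣ γ - γ₀` and `α M ∣ β γ + 1 - α δ₀` -/
noncomputable def Nrow (α M : ℕ) (β₀ γ₀ δ₀ B₁ B₂ C₁ C₂ : ℤ) : Finset (ℤ × ℤ) :=
  ((Ioc B₁ B₂) ×ˢ (Ioc C₁ C₂)).filter (fun t => (M : ℤ) ∣ t.1 - β₀ ∧ (M : ℤ) ∣ t.2 - γ₀ ∧
    ((α * M : ℕ) : ℤ) ∣ t.1 * t.2 + 1 - α * δ₀)

/-- `ρ(α, M) = ∑_{d ∣ α, (d, M) = 1} μ(d)/d` -/
noncomputable def rho (α M : ℕ) : ℝ :=
  ∑ d ∈ α.divisors.filter (fun d => Nat.Coprime d M), (ArithmeticFunction.moebius d : ℝ) / d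

/-- three-entry box: `t = (α, β, γ)` with `α ∣ β γ + 1` -/
noncomputable def EBox (A₁ A₂ : ℕ) (B₁ B₂ C₁ C₂ : ℤ) : Finset (ℤ × ℤ × ℤ) :=
  ((Ioc (A₁ : ℤ) A₂) ×ˢ (Ioc B₁ B₂) ×ˢ (Ioc C₁ C₂)).filter (fun t => t.1 ∣ t.2.1 * t.2.2 + 1)

/-- the matrix `(α, β; γ, δ)` of determinant one, as `(α, β, γ, δ)` -/
def emat (t : ℤ × ℤ × ℤ) : ℤ × ℤ × ℤ × ℤ := (t.1, t.2.1, t.2.2, (t.2.1 * t.2.2 + 1) / t.1)

/-- reduction modulo `M` -/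
def red (M : ℕ) (g : ℤ × ℤ × ℤ × ℤ) : ZMod M × ZMod M × ZMod M × ZMod M :=
  ((g.1 : ZMod M), (g.2.1 : ZMod M), (g.2.2.1 : ZMod M), (g.2.2.2 : ZMod M))

/-- a lift of a class -/
noncomputable def lft {M : ℕ} (g : ZMod M × ZMod M × ZMod M × ZMod M) : ℤ × ℤ × ℤ × ℤ :=
  ((g.1.val : ℤ), (g.2.1.val : ℤ), (g.2.2.1.val : ℤ), (g.2.2.2.val : ℤ))

/-- `SL₂(ℤ/M)` as 4-tuples `(α, β, γ, δ)` with `α δ - β γ = 1` -/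
noncomputable def SLM (M : ℕ) [NeZero M] : Finset (ZMod M × ZMod M × ZMod M × ZMod M) :=
  by classical exact univ.filter (fun g => g.1 * g.2.2.2 - g.2.1 * g.2.2.1 = 1)

/-- functions of integer matrices which depend only on the classes modulo `M` -/
def Per (M : ℕ) (F : ℤ × ℤ × ℤ × ℤ → ℝ) : Prop :=
  ∀ g h : ℤ × ℤ × ℤ × ℤ, (M : ℤ) ∣ g.1 - h.1 → (M : ℤ) ∣ g.2.1 - h.2.1 →
    (M : ℤ) ∣ g.2.2.1 - h.2.2.1 → (M : ℤ) ∣ g.2.2.2 - h.2.2.2 → F g = F h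

/-- the mean of `F` over `SL₂(ℤ/M)` -/
noncomputable def EM (M : ℕ) [NeZero M] (F : ℤ × ℤ × ℤ × ℤ → ℝ) : ℝ :=
  (∑ g ∈ SLM M, F (lft g)) / ((SLM M).card : ℝ)

/-- the elements of the box in the class of `g` -/
noncomputable def Cls (M : ℕ) (A₁ A₂ : ℕ) (B₁ B₂ C₁ C₂ : ℤ)
    (g : ZMod M × ZMod M × ZMod M × ZMod M) : Finset (ℤ × ℤ × ℤ) :=
  (EBox A₁ A₂ B₁ B₂ C₁ C₂).filter (fun t => red M (emat t) = g)

end Pool.Agent.PENT.EQ
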