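import Pool.Agent.Lib_helper39.PEQ.Defs

/-!
# PENT, part EQ: forms `(g, n, g')` of determinant one modulo `m` (definitions)
-/

set_option autoImplicit false

namespace Pool.Agent.PENT.EQ

open Finset

/-- the form `PᵀP = (α² + γ², α β + γ δ, β² + δ²)` -/
noncomputable def QQ (g : ℤ × ℤ × ℤ × ℤ) : ℤ × ℤ × ℤ :=
  (g.1 ^ 2 + g.2.2.1 ^ 2, g.1 * g.2.1 + g.2.2.1 * g.2.2.2, g.2.1 ^ 2 + g.2.2.2 ^ 2)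

/-- the forms `(g, n, g')` modulo `m` with `g g' - n² = 1`, representatives in `[0, m)³` -/
noncomputable def V3 (m : ℕ) : Finset (ℤ × ℤ × ℤ) :=
  ((Ico (0 : ℤ) m) ×ˢ (Ico (0 : ℤ) m) ×ˢ (Ico (0 : ℤ) m)).filter
    (fun v => (m : ℤ) ∣ v.1 * v.2.2 - v.2.1 ^ 2 - 1)

/-- functions on `ℤ³` which depend only on the classes modulo `m` -/
def Per3 (m : ℕ) (h : ℤ × ℤ × ℤ → ℝ) : Prop :=
  ∀ v w : ℤ × ℤ × ℤ, (m : ℤ) ∣ v.1 - w.1 → (m : ℤ) ∣ v.2.1 - w.2.1 →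
    (m : ℤ) ∣ v.2.2 - w.2.2 → h v = h w

/-- the mean over the forms modulo `m` -/
noncomputable def MV (m : ℕ) (h : ℤ × ℤ × ℤ → ℝ) : ℝ := (∑ v ∈ V3 m, h v) / ((V3 m).card : ℝ)

/-- **(EQ)** for a finite set of triples: product-form equidistribution with error `R` and level `D` -/
def EqFam (O : Finset (ℤ × ℤ × ℤ)) (q : ℤ × ℤ × ℤ → ℤ × ℤ × ℤ) (D R : ℝ) : Prop :=
  ∀ T : Finset ℕ, (∀ m ∈ T, Odd m) → (∀ m ∈ T, ∀ m' ∈ T, m ≠ m' → Nat.Coprime m m') →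
    ((∏ m ∈ T, m : ℕ) : ℝ) ≤ D → ∀ h : ℕ → ℤ × ℤ × ℤ → ℝ, (∀ m ∈ T, Per3 m (h m)) →
    (∀ m ∈ T, ∀ v, 0 ≤ h m v ∧ h m v ≤ 1) →
    |∑ t ∈ O, ∏ m ∈ T, h m (q t) - (O.card : ℝ) * ∏ m ∈ T, MV m (h m)| ≤ R

end Pool.Agent.PENT.EQ
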